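import Mathlib
import Pool.Agent.H373R2.T7.SHN3

/-!
Schinzel's quantitative hypothesis for `F_1(n), ..., F_g(n), N - G(n)`, on average: for arbitrary fixed nonconstant
polynomials `F_1, ..., F_g, G` with integer coefficients and positive leading coefficients, and for all but a proportion
`1 / log^U x` of the tuples `(N, a_1, ..., a_g)` with `1 ≤ N ≤ M` (`M` of the order of magnitude of `x ^ deg G`) and
`1 ≤ a_i ≤ A_i` (`A_i` of the order of magnitude of `x ^ deg F_i`), the number of positive integers `n` with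
`F_1(n) + a_1, ..., F_g(n) + a_g, N - G(n)` all prime is given by Schinzel's formula (with the singular series cut at `z`),
with an error saving any power of the logarithm in the logarithmically weighted form of the count.
-/

namespace Pool.Agent.Results.MP_0bf1d2_nt.AlmostAllShifts
open Finset Polynomial Pool.Agent.H373R2.T7.SHN

open Classical in
theorem result (g : ℕ) (F : Fin g → ℤ[X]) (hF : ∀ i, 1 ≤ (F i).natDegree) (hFl : ∀ i, 0 < (F i).leadingCoeff)
    (G : ℤ[X]) (hG : 1 ≤ G.natDegree) (hGl : 0 < G.leadingCoeff) (B : ℕ) (hB : 1 ≤ B) (U : ℕ) (ε : ℝ) (hε : 0 < ε) :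
    ∃ B₀ : ℕ, ∀ E : ℕ, ∃ x₀ : ℕ, ∀ x : ℕ, x₀ ≤ x →
      ∀ M : ℕ, M ≤ B * x ^ G.natDegree → x ^ G.natDegree ≤ B * M → (∀ n : ℕ, x < n → (M : ℤ) ≤ G.eval (n : ℤ)) →
      ∀ A : Fin g → ℕ, (∀ i, A i ≤ B * x ^ (F i).natDegree ∧ x ^ (F i).natDegree ≤ B * A i) →
      ∀ z : ℕ, Real.log x ^ B₀ ≤ z → (z : ℝ) ≤ Real.log x ^ E →
      (((Icc 1 M ×ˢ Fintype.piFinset (fun i => Icc 1 (A i))).filter (fun q : ℕ × (Fin g → ℕ) =>
        ¬ (|W1 F q.2 G q.1 - sing F q.2 G q.1 z * X1 G q.1| ≤ x / Real.log x ^ U ∧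
          (NoFixedDivisor F q.2 G q.1 → ε * x ≤ X1 G q.1 →
            |(Q1 F q.2 G q.1 : ℝ) - expected F q.2 G q.1 z| ≤ ε * expected F q.2 G q.1 z)))).card : ℝ) ≤
        (M * ∏ i, (A i : ℝ)) / Real.log x ^ U :=
  full_main F hF hFl G hG hGl B hB U ε hε

end Pool.Agent.Results.MP_0bf1d2_nt.AlmostAllShifts
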