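import Mathlib
import Pool.Agent.H373R2.T7.TB3

/-!
Schinzel's hypothesis for `F_1(n), ..., F_g(n), N - G(n)` with almost primes, for every choice of the polynomials and for
almost all `N`: for arbitrary fixed nonconstant polynomials `F_1, ..., F_g, G` with integer coefficients and positive
leading coefficients, for all but a proportion `1 / log^U x` of the `N ≤ M` (`M` of the order of magnitude of
`x ^ deg G`) for which `F_1 ... F_g (N - G)` has no fixed prime divisor, the number of positive integers `n` such that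
`N - G(n)` is prime and no `F_i(n)` has a prime factor `≤ y` is given by the expected formula up to a factor `1 ± ε`,
for every `y ≤ x ^ (1 / K)`, where `K` depends on the polynomials and on `ε` only.
-/

namespace Pool.Agent.Results.MP_0bf1d2_nt.AlmostPrimeValues
open Finset Polynomial Pool.Agent.H373R2.T7.TB Pool.Agent.H373R2.T7.SHN

open Classical in
theorem result (g : ℕ) (F : Fin g → ℤ[X]) (hF : ∀ i, 1 ≤ (F i).natDegree) (hFl : ∀ i, 0 < (F i).leadingCoeff)
    (G : ℤ[X]) (hG : 1 ≤ G.natDegree) (hGl : 0 < G.leadingCoeff) (B : ℕ) (hB : 1 ≤ B) (U : ℕ) (ε : ℝ) (hε : 0 < ε) :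
    ∃ K B₀ : ℕ, ∀ E : ℕ, ∃ x₀ : ℕ, ∀ x : ℕ, x₀ ≤ x →
      ∀ M : ℕ, M ≤ B * x ^ G.natDegree → x ^ G.natDegree ≤ B * M → (∀ n : ℕ, x < n → (M : ℤ) ≤ G.eval (n : ℤ)) →
      ∀ z y : ℕ, Real.log x ^ B₀ ≤ z → (z : ℝ) ≤ Real.log x ^ E → z ≤ y → y ^ K ≤ x →
      (((Icc 1 M).filter (fun N : ℕ => ¬ (NoFixed F G N → ε * x ≤ X1 G N →
        |(R1 F G N y : ℝ) - expectedR F G N z y| ≤ ε * expectedR F G N z y))).card : ℝ) ≤ M / Real.log x ^ U :=
  tb_main F hF hFl G hG hGl B hB U ε hε

end Pool.Agent.Results.MP_0bf1d2_nt.AlmostPrimeValues
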