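import Pool.Agent.H378R2.PS.FinG

set_option autoImplicit false

/-! # Even integers without a Goldbach representation with a small prime

There is `c > 0` such that for all large `X` every interval `(M, M + X]`, `M ≥ X`, contains an even
`N` such that every prime `q` with `N - q` prime, and every prime `q` with `N + q` prime, satisfies
`q > c log X (log₂ X)³ log₄ X / (log₃ X)²`.

Project PS: helper378 (design, P0 Selberg sieve, assembly), helper510 (P2, P5, P6),
helper201 (P3), helper380 (P6, with helper510); it uses the covering sieve of helper256 and team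
(MP_3bc45c_nt.RecordGaps), and the Selberg sieve of the files Pool.Agent.Cov and
Pool.Agent.Erdos456 of the starting point. -/

namespace Pool.Agent.Results.MP_0bf1d2_nt.LeastGoldbachPrime

theorem result : ∃ c : ℝ, 0 < c ∧ ∃ X₀ : ℝ, ∀ X : ℝ, X₀ ≤ X → ∀ M : ℝ, X ≤ M →
    ∃ N : ℕ, M < N ∧ (N : ℝ) ≤ M + X ∧ Even N ∧
      ∀ q r : ℕ, q.Prime → r.Prime → (r + q = N ∨ r = N + q) →
        c * (Real.log X * (Real.log (Real.log X)) ^ 3 *
          Real.log (Real.log (Real.log (Real.log X))) /
            (Real.log (Real.log (Real.log X))) ^ 2) < q :=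
  Pool.Agent.H378R2.PS.goldbach_least

end Pool.Agent.Results.MP_0bf1d2_nt.LeastGoldbachPrime
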