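import Mathlib
import Pool.Agent.H373R2.T7.PB2

/-!
Schinzel's hypothesis for `n, F_1(n), ..., F_g(n), N - G(n)`, with `n` and `N - G(n)` prime and the `F_i(n)` without
small prime factors, for every choice of the polynomials and for almost all `N`: for arbitrary fixed nonconstant
polynomials `F_1, ..., F_g, G` with integer coefficients and positive leading coefficients, for all but a proportion
`1 / log^U x` of the `N ≤ M` (`M` of the order of magnitude of `x ^ deg G`) for which `x F_1 ... F_g (N - G)` has no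
fixed prime divisor, the number of primes `p ≤ x` such that `N - G(p)` is prime and no `F_i(p)` has a prime factor
`≤ y`, each counted with the weight `log p * log (N - G(p))`, is given by the expected formula up to a factor `1 ± ε`,
for every `y ≤ x ^ (1 / K)`, where `K` depends on the sum of the degrees and on `ε` only.
-/

namespace Pool.Agent.Results.MP_0bf1d2_nt.PrimeArguments
open Finset Polynomial Pool.Agent.H373R2.T7.TB Pool.Agent.H373R2.T7.PB

open Classical in
theorem result (D : ℕ) (ε : ℝ) (hε : 0 < ε) : ∃ K : ℕ, 1 ≤ K ∧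
    ∀ (g : ℕ) (F : Fin g → ℤ[X]), (∀ i, 1 ≤ (F i).natDegree) → (∀ i, 0 < (F i).leadingCoeff) →
    ∀ G : ℤ[X], 1 ≤ G.natDegree → 0 < G.leadingCoeff → ∑ i, (F i).natDegree + G.natDegree ≤ D →
    ∀ (B U : ℕ) (κ : ℝ), 1 ≤ B → 0 < κ →
    ∃ B₀ : ℕ, ∀ E : ℕ, ∃ x₀ : ℕ, ∀ x : ℕ, x₀ ≤ x → ∀ M : ℕ, M ≤ B * x ^ G.natDegree → x ^ G.natDegree ≤ B * M →
      ∀ z y : ℕ, Real.log x ^ B₀ ≤ z → (z : ℝ) ≤ Real.log x ^ E → z ≤ y → y ^ K ≤ x →
      (((Icc 1 M).filter (fun N : ℕ => ¬ (NoFixed (Pool.Agent.H373R2.T7.PArg.eF F) G N →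
        κ * x ≤ Pool.Agent.H373R2.T7.SHN.XCount G N x →
        |WP F G N y x - TP F G N z y x| ≤ ε * TP F G N z y x))).card : ℝ) ≤ M / Real.log x ^ U :=
  pb_main D ε hε

end Pool.Agent.Results.MP_0bf1d2_nt.PrimeArguments
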